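import Pool.Agent.helper53.ORE.Spec

/-!
# Project ore (MP_561ff4_al), row LRL
-/

set_option autoImplicit false

namespace Pool.Agent.ORE

open Module Pool.Agent.GS

theorem LRL (l2 : L2_stmt) (o1 : O1_stmt) (o3 : O3_stmt) (o4 : O4_stmt) : LRL_stmt := by
  intro F V _ _ _ _ _ Q h2 hnd hn y hy l hl hyl hy1 hrq
  rcases hl.eq_two_or_odd' with h | hodd
  · subst h
    have hyy : y * y = 1 := by
      rw [← hyl, pow_two]
    exact l2 Q h2 hnd hn y hy hy1 hyy hrq
  · by_cases h3 : ∃ (u : V) (lam : F), u ≠ 0 ∧ y u = lam • u ∧ lam ≠ 1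
    · obtain ⟨u, lam, hu, hyu, hlam⟩ := h3
      exact o3 Q h2 hnd hn y hy l hodd hyl u lam hu hlam hyu
    · by_cases h1 : ∃ u : V, y u = u ∧ Q u = 0 ∧ u ≠ 0
      · obtain ⟨u, hyu, hQu, hu⟩ := h1
        exact o1 Q h2 hnd hn y hy hy1 l hodd hyl u hu hQu hyu
      · refine o4 Q h2 hnd hn y hy hy1 l hodd hyl ?_ ?_
        · intro u hyu hQu
          by_contra hu
          exact h1 ⟨u, hyu, hQu, hu⟩
        · intro u lam hu hyu
          by_contra hlam
          exact h3 ⟨u, lam, hu, hyu, hlam⟩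

end Pool.Agent.ORE
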